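import Mathlib
import Pool.Agent.Helper77.Dens.Defs

/-!
Block systems and the assembly of a partition by Hall's theorem.
-/

namespace Pool.Agent.Helper77.PB

open Dens

universe u

variable {G : Type u} [Group G]

open Classical in
/-- The number of elements of `W` that are moved out of `W` by `e`. -/
noncomputable def bd (e : G) (W : Finset G) : ℕ := (W.filter fun w => e * w ∉ W).card

open Classical in
/-- The number of blocks met by `W`. -/
noncomputable def nb {X : Type*} (β : G → X) (W : Finset G) : ℕ := (W.image β).card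

open Classical in
/-- A block system for the element `e`: the group is cut into finite blocks; sets having at most
`cap` elements in each block can be coloured with `r` colours such that every colour class has
more than `m r` pairwise disjoint translates; sets filling most of the blocks they meet are almost
invariant. -/
structure Sys (e : G) (m r : ℕ) (ε : ℝ) where
  /-- the set of blocks -/
  X : Type u
  /-- the block of an element -/
  β : G → X
  /-- the capacity of the blocks -/
  cap : ℕ
  split : ∀ A : Set G, (∀ x, ∀ W : Finset G, (∀ w ∈ W, w ∈ A ∧ β w = x) → W.card ≤ cap) →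
    ∃ col : G → Fin r, ∀ i, ((m * r : ℕ) : ℕ∞) < pack {a | a ∈ A ∧ col a = i}
  folner : ∀ W : Finset G, (bd e W : ℝ) ≤ (1 + ε) * (m * cap) * nb β W - W.card

open Classical in
/-- If all elements `e t` have block systems and `G` has property (b), there is a nonempty finite
set almost invariant under all `e t`. -/
theorem exists_folner_of_sys (hG : PropB G) {m r : ℕ} (hm : 0 < m) (hr : 0 < r) {ε : ℝ}
    (hε : 0 ≤ ε) (e : Fin m → G) (S : ∀ t, Sys (e t) m r ε) :
    ∃ W : Finset G, W.Nonempty ∧ ∀ t, (bd (e t) W : ℝ) ≤ ε * m * W.card := by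
  by_contra hcon
  push Not at hcon
  -- the Hall condition
  have hsum : ∀ W : Finset G, W.card ≤ ∑ t, (S t).cap * nb (S t).β W := by
    intro W
    rcases W.eq_empty_or_nonempty with rfl | hW
    · simp
    obtain ⟨t₀, ht₀⟩ := hcon W hW
    by_contra hlt
    push Not at hlt
    have h1 : (∑ t, ((S t).cap : ℝ) * nb (S t).β W) ≤ W.card := by
      exact_mod_cast hlt.le
    have h2 : ∑ t, (bd (e t) W : ℝ) ≤
        ∑ t, ((1 + ε) * (m * (S t).cap) * nb (S t).β W - W.card) :=
      Finset.sum_le_sum fun t _ => (S t).folner W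
    have h3 : (bd (e t₀) W : ℝ) ≤ ∑ t, (bd (e t) W : ℝ) :=
      Finset.single_le_sum (f := fun t => (bd (e t) W : ℝ)) (fun t _ => Nat.cast_nonneg _)
        (Finset.mem_univ t₀)
    have h4 : ∑ t, ((1 + ε) * (m * (S t).cap) * nb (S t).β W - (W.card : ℝ)) =
        (1 + ε) * m * (∑ t, ((S t).cap : ℝ) * nb (S t).β W) - m * W.card := by
      rw [Finset.sum_sub_distrib, Finset.mul_sum]
      simp only [Finset.sum_const, Finset.card_univ, Fintype.card_fin, nsmul_eq_mul]
      congr 1
      refine Finset.sum_congr rfl fun t _ => ?_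
      ring
    have h5 : (1 + ε) * m * (∑ t, ((S t).cap : ℝ) * nb (S t).β W) ≤
        (1 + ε) * m * W.card := mul_le_mul_of_nonneg_left h1 (by positivity)
    have h6 : (1 + ε) * m * (W.card : ℝ) - m * W.card = ε * m * W.card := by ring
    linarith
  let Y := Σ t : Fin m, (S t).X × Fin (S t).cap
  let tgt : G → Finset Y := fun w =>
    (Finset.univ : Finset (Σ t : Fin m, Fin (S t).cap)).image
      fun p => (⟨p.1, ((S p.1).β w, p.2)⟩ : Y)
  have hall : ∀ W : Finset G, W.card ≤ (W.biUnion tgt).card := by
    intro W
    refine (hsum W).trans ?_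
    let Z : Finset Y := Finset.univ.sigma fun t : Fin m =>
      (W.image (S t).β) ×ˢ (Finset.univ : Finset (Fin (S t).cap))
    have hZ : Z.card = ∑ t, (S t).cap * nb (S t).β W := by
      rw [Finset.card_sigma]
      refine Finset.sum_congr rfl fun t _ => ?_
      rw [Finset.card_product, Finset.card_univ, Fintype.card_fin, mul_comm]
      rfl
    rw [← hZ]
    apply Finset.card_le_card
    rintro ⟨t, x, k⟩ hz
    have hz1 := (Finset.mem_sigma.1 hz).2
    obtain ⟨w, hw, hwx⟩ := Finset.mem_image.1 (Finset.mem_product.1 hz1).1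
    simp only at hwx
    subst hwx
    rw [Finset.mem_biUnion]
    exact ⟨w, hw, Finset.mem_image.2 ⟨⟨t, k⟩, Finset.mem_univ _, rfl⟩⟩
  obtain ⟨f, hf, hft⟩ := (Finset.all_card_le_biUnion_card_iff_exists_injective tgt).1 hall
  have hfβ : ∀ w, (f w).2.1 = (S (f w).1).β w := by
    intro w
    obtain ⟨p, _, hp⟩ := Finset.mem_image.1 (hft w)
    rw [← hp]
  have hsplit : ∀ t, ∃ col : G → Fin r, ∀ i,
      ((m * r : ℕ) : ℕ∞) < pack {a | a ∈ {w | (f w).1 = t} ∧ col a = i} := by
    intro t
    apply (S t).split
    intro x W hW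
    have h1 : W.card ≤ ((Finset.univ : Finset (Fin (S t).cap)).image
        fun k => (⟨t, (x, k)⟩ : Y)).card := by
      apply Finset.card_le_card_of_injOn f
      · intro w hw
        obtain ⟨hw1, hw2⟩ := hW w hw
        simp only [Finset.coe_image, Finset.coe_univ, Set.image_univ, Set.mem_range]
        have h3 := hfβ w
        rcases hfw : f w with ⟨t', x', k⟩
        rw [hfw] at h3
        simp only [Set.mem_ofPred_eq, hfw] at hw1
        subst hw1
        simp only at h3
        rw [hw2] at h3
        subst h3
        exact ⟨k, rfl⟩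
      · exact hf.injOn
    refine h1.trans (Finset.card_image_le.trans ?_)
    rw [Finset.card_univ, Fintype.card_fin]
  choose col hcol using hsplit
  let A : Fin (m * r) → Set G := fun i =>
    {w | finProdFinEquiv ((f w).1, col (f w).1 w) = i}
  have hA : IsPartition A := by
    refine ⟨fun i j hij => ?_, fun g => ⟨_, rfl⟩⟩
    rw [Set.disjoint_left]
    intro w hw hw'
    exact hij (hw.symm.trans hw')
  obtain ⟨i, hi⟩ := hG (m * r) (Nat.mul_pos hm hr) A hA
  have h1 := hcol (finProdFinEquiv.symm i).1 (finProdFinEquiv.symm i).2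
  have h2 : {a | a ∈ {w | (f w).1 = (finProdFinEquiv.symm i).1} ∧
      col (finProdFinEquiv.symm i).1 a = (finProdFinEquiv.symm i).2} = A i := by
    ext w
    simp only [Set.mem_ofPred_eq, A]
    constructor
    · rintro ⟨ha, hb⟩
      rw [ha, hb]
      exact finProdFinEquiv.apply_symm_apply i
    · intro h
      rw [← h, finProdFinEquiv.symm_apply_apply]
      exact ⟨rfl, rfl⟩
  rw [h2] at h1
  exact absurd hi (not_le.2 h1)

end Pool.Agent.Helper77.PB
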