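import Mathlib
import Pool.Agent.Helper77.PB.System

/-!
Almost invariant finite sets give an invariant measure.
-/

namespace Pool.Agent.Helper77.PB

open Dens Filter Topology

universe u

variable {G : Type u} [Group G]

open Classical in
/-- The number of elements of `W` in `A`. -/
noncomputable def cnt (W : Finset G) (A : Set G) : ℕ := (W.filter fun w => w ∈ A).card

open Classical in
lemma cnt_le (g : G) (W : Finset G) (A : Set G) :
    cnt W A ≤ cnt W ((fun x => g * x) '' A) + bd g W := by
  unfold cnt bd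
  have h1 : (W.filter fun w => w ∈ A) ⊆ (W.filter fun w => w ∈ A ∧ g * w ∈ W) ∪
      (W.filter fun w => g * w ∉ W) := by
    intro w hw
    have hw' := Finset.mem_filter.1 hw
    rw [Finset.mem_union, Finset.mem_filter, Finset.mem_filter]
    by_cases h : g * w ∈ W
    · exact Or.inl ⟨hw'.1, hw'.2, h⟩
    · exact Or.inr ⟨hw'.1, h⟩
  have h2 : (W.filter fun w => w ∈ A ∧ g * w ∈ W).card ≤
      (W.filter fun w => w ∈ (fun x => g * x) '' A).card := by
    apply Finset.card_le_card_of_injOn fun w => g * w
    · intro w hw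
      have hw' := Finset.mem_filter.1 hw
      exact Finset.mem_coe.2 (Finset.mem_filter.2 ⟨hw'.2.2, w, hw'.2.1, rfl⟩)
    · intro a _ b _ hab
      exact mul_left_cancel hab
  exact (Finset.card_le_card h1).trans ((Finset.card_union_le _ _).trans
    (Nat.add_le_add_right h2 _))

open Classical in
lemma cnt_ge (g : G) (W : Finset G) (A : Set G) :
    cnt W ((fun x => g * x) '' A) ≤ cnt W A + bd g W := by
  unfold cnt bd
  have h1 : (W.filter fun w => w ∈ (fun x => g * x) '' A) ⊆
      (W.filter fun w => g⁻¹ * w ∈ A ∧ g⁻¹ * w ∈ W) ∪ (W.filter fun w => g⁻¹ * w ∉ W) := by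
    intro w hw
    have hw' := Finset.mem_filter.1 hw
    obtain ⟨a, ha, rfl⟩ := hw'.2
    rw [Finset.mem_union, Finset.mem_filter, Finset.mem_filter]
    by_cases h : g⁻¹ * (g * a) ∈ W
    · refine Or.inl ⟨hw'.1, ?_, h⟩
      rwa [inv_mul_cancel_left]
    · exact Or.inr ⟨hw'.1, h⟩
  have h2 : (W.filter fun w => g⁻¹ * w ∈ A ∧ g⁻¹ * w ∈ W).card ≤
      (W.filter fun w => w ∈ A).card := by
    apply Finset.card_le_card_of_injOn fun w => g⁻¹ * w
    · intro w hw
      have hw' := Finset.mem_filter.1 hw
      exact Finset.mem_coe.2 (Finset.mem_filter.2 ⟨hw'.2.2, hw'.2.1⟩)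
    · intro a _ b _ hab
      exact mul_left_cancel hab
  have h3 : (W.filter fun w => g⁻¹ * w ∉ W).card = (W.filter fun w => g * w ∉ W).card := by
    have h4 : (W.filter fun w => g⁻¹ * w ∈ W).card = (W.filter fun w => g * w ∈ W).card := by
      apply Finset.card_bij (fun w _ => g⁻¹ * w)
      · intro w hw
        have hw' := Finset.mem_filter.1 hw
        exact Finset.mem_filter.2 ⟨hw'.2, by rw [mul_inv_cancel_left]; exact hw'.1⟩
      · intro a _ b _ hab
        exact mul_left_cancel hab
      · intro w hw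
        have hw' := Finset.mem_filter.1 hw
        exact ⟨g * w, Finset.mem_filter.2 ⟨hw'.2, by rw [inv_mul_cancel_left]; exact hw'.1⟩,
          by rw [inv_mul_cancel_left]⟩
    have h5 := Finset.card_filter_add_card_filter_not (s := W) (fun w => g⁻¹ * w ∈ W)
    have h6 := Finset.card_filter_add_card_filter_not (s := W) (fun w => g * w ∈ W)
    omega
  rw [← h3]
  exact (Finset.card_le_card h1).trans ((Finset.card_union_le _ _).trans
    (Nat.add_le_add_right h2 _))

omit [Group G] in
open Classical in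
lemma cnt_union (W : Finset G) (A B : Set G) (h : Disjoint A B) :
    cnt W (A ∪ B) = cnt W A + cnt W B := by
  unfold cnt
  rw [← Finset.card_union_of_disjoint]
  · congr 1
    ext w
    simp only [Finset.mem_filter, Finset.mem_union, Set.mem_union]
    tauto
  · rw [Finset.disjoint_left]
    intro w hw hw'
    exact Set.disjoint_left.1 h (Finset.mem_filter.1 hw).2 (Finset.mem_filter.1 hw').2

omit [Group G] in
lemma cnt_univ (W : Finset G) : cnt W Set.univ = W.card := by
  unfold cnt
  congr 1
  ext w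
  simp

omit [Group G] in
lemma cnt_le_card (W : Finset G) (A : Set G) : cnt W A ≤ W.card := by
  classical
  unfold cnt
  exact Finset.card_filter_le _ _

theorem measure_of_folner (Good : Set G)
    (h : ∀ Φ : Finset G, (Φ : Set G) ⊆ Good → ∀ δ : ℝ, 0 < δ → ∃ W : Finset G, W.Nonempty ∧
      ∀ g ∈ Φ, (bd g W : ℝ) ≤ δ * W.card) :
    ∃ μ : Measure G, ∀ g ∈ Good, ∀ A, μ.val ((fun x => g * x) '' A) = μ.val A := by
  classical
  let I := Finset Good × ℕ
  have h1 : ∀ i : I, ∃ W : Finset G, W.Nonempty ∧
      ∀ g ∈ i.1, (bd (g : G) W : ℝ) ≤ (1 / ((i.2 : ℝ) + 1)) * W.card := by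
    intro i
    obtain ⟨W, hW, hW'⟩ := h (i.1.image Subtype.val) (by
      intro g hg
      obtain ⟨y, _, rfl⟩ := Finset.mem_image.1 (Finset.mem_coe.1 hg)
      exact y.2) (1 / ((i.2 : ℝ) + 1)) (by positivity)
    exact ⟨W, hW, fun g hg => hW' _ (Finset.mem_image_of_mem _ hg)⟩
  choose W hWne hW using h1
  have hcard : ∀ i, (0 : ℝ) < (W i).card := fun i => by exact_mod_cast (hWne i).card_pos
  let F : Set G → I → ℝ := fun A i => (cnt (W i) A : ℝ) / (W i).card
  have hF0 : ∀ A i, 0 ≤ F A i := fun A i => by positivity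
  have hF1 : ∀ A i, F A i ≤ 1 := fun A i => by
    rw [div_le_one (hcard i)]
    exact_mod_cast cnt_le_card _ _
  let U : Ultrafilter I := Ultrafilter.of atTop
  have hlim : ∀ A, ∃ x ∈ Set.Icc (0 : ℝ) 1, Tendsto (F A) U (𝓝 x) := by
    intro A
    apply isCompact_Icc.ultrafilter_le_nhds (U.map (F A))
    rw [le_principal_iff]
    change Set.Icc (0 : ℝ) 1 ∈ U.map (F A)
    rw [Ultrafilter.mem_map]
    exact Filter.univ_mem' fun i => ⟨hF0 A i, hF1 A i⟩
  choose μ hμ01 hμ using hlim
  refine ⟨⟨μ, fun A => (hμ01 A).1, ?_, ?_⟩, ?_⟩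
  · have h2 : F Set.univ = fun _ => (1 : ℝ) := by
      funext i
      simp only [F]
      rw [cnt_univ, div_self (hcard i).ne']
    have h3 := hμ Set.univ
    rw [h2] at h3
    exact tendsto_nhds_unique h3 tendsto_const_nhds
  · intro A B hAB
    have h2 : F (A ∪ B) = fun i => F A i + F B i := by
      funext i
      simp only [F]
      rw [cnt_union _ _ _ hAB]
      push_cast
      rw [add_div]
    have h3 := hμ (A ∪ B)
    rw [h2] at h3
    exact tendsto_nhds_unique h3 ((hμ A).add (hμ B))
  · intro g hg A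
    simp only
    have h2 : Tendsto (fun i => F ((fun x => g * x) '' A) i - F A i) U
        (𝓝 (μ ((fun x => g * x) '' A) - μ A)) := (hμ _).sub (hμ A)
    have hU : (U : Filter I) ≤ atTop := Ultrafilter.of_le _
    have h3 : Tendsto (fun i : I => 1 / ((i.2 : ℝ) + 1)) U (𝓝 0) := by
      apply Tendsto.mono_left _ hU
      have h4 : Tendsto (fun i : I => i.2) atTop atTop := by
        rw [← prod_atTop_atTop_eq]
        exact tendsto_snd
      exact tendsto_one_div_add_atTop_nhds_zero_nat.comp h4
    have h4 : ∀ᶠ i in (U : Filter I), |F ((fun x => g * x) '' A) i - F A i| ≤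
        1 / ((i.2 : ℝ) + 1) := by
      apply hU
      filter_upwards [eventually_ge_atTop (({⟨g, hg⟩}, 0) : I)] with i hi
      have hgi : (⟨g, hg⟩ : Good) ∈ i.1 := hi.1 (Finset.mem_singleton_self _)
      have h5 := hW i _ hgi
      simp only at h5
      have h6 : (cnt (W i) A : ℝ) ≤ cnt (W i) ((fun x => g * x) '' A) + bd g (W i) := by
        exact_mod_cast cnt_le g (W i) A
      have h7 : (cnt (W i) ((fun x => g * x) '' A) : ℝ) ≤ cnt (W i) A + bd g (W i) := by
        exact_mod_cast cnt_ge g (W i) A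
      simp only [F]
      rw [← sub_div, abs_div, abs_of_pos (hcard i), div_le_iff₀ (hcard i), abs_le]
      constructor <;> linarith
    have h5 : Tendsto (fun i => F ((fun x => g * x) '' A) i - F A i) U (𝓝 0) := by
      apply squeeze_zero_norm' _ h3
      filter_upwards [h4] with i hi
      exact hi
    have h6 := tendsto_nhds_unique h2 h5
    linarith

end Pool.Agent.Helper77.PB
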