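import Mathlib
import Pool.Agent.Helper77.PB.System

/-!
The block system given by a finite subgroup.
-/

namespace Pool.Agent.Helper77.PB

open Dens

universe u

variable {G : Type u} [Group G]

lemma exists_injOn_fin {α : Type*} (S : Set α) {r : ℕ} (hr : 0 < r)
    (h : ∀ W : Finset α, (∀ w ∈ W, w ∈ S) → W.card ≤ r) : ∃ c : α → Fin r, Set.InjOn c S := by
  classical
  have hfin : S.Finite := by
    by_contra hinf
    obtain ⟨W, hW, hcard⟩ := Set.Infinite.exists_subset_card_eq hinf (r + 1)
    have := h W (fun w hw => hW hw)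
    omega
  have hcard : hfin.toFinset.card ≤ r := h _ (fun w hw => hfin.mem_toFinset.1 hw)
  refine ⟨fun w => if hw : w ∈ hfin.toFinset then
    Fin.castLE hcard (hfin.toFinset.equivFin ⟨w, hw⟩) else ⟨0, hr⟩, ?_⟩
  intro a ha b hb hab
  have ha' := hfin.mem_toFinset.2 ha
  have hb' := hfin.mem_toFinset.2 hb
  simp only [dif_pos ha', dif_pos hb'] at hab
  have h1 := (Fin.castLE_injective hcard) hab
  have h2 := hfin.toFinset.equivFin.injective h1
  exact congrArg Subtype.val h2

open Classical in
/-- The number of elements of `W` that are moved out of `W` by `e` inside their block. -/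
noncomputable def bdin (e : G) {X : Type*} (β : G → X) (W : Finset G) : ℕ :=
  (W.filter fun w => e * w ∉ W ∧ β (e * w) = β w).card

lemma bdin_eq (e : G) {X : Type*} (β : G → X) (h : ∀ w, β (e * w) = β w) (W : Finset G) :
    bdin e β W = bd e W := by
  unfold bdin bd
  congr 1
  ext w
  simp [h]

open Classical in
lemma card_add_le {e : G} {X : Type*} (β : G → X) {L : ℕ}
    (hβ : ∀ V : Finset G, ∀ x, (∀ w ∈ V, β w = x) → V.card ≤ L) (W : Finset G) :
    W.card + bdin e β W ≤ L * nb β W := by
  unfold bdin nb
  set F := W.filter fun w => e * w ∉ W ∧ β (e * w) = β w with hF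
  let V := W ∪ F.image (fun w => e * w)
  have hdisj : Disjoint W (F.image fun w => e * w) := by
    rw [Finset.disjoint_left]
    intro y hy hy'
    obtain ⟨w, hw, rfl⟩ := Finset.mem_image.1 hy'
    exact (Finset.mem_filter.1 hw).2.1 hy
  have hcard : V.card = W.card + F.card := by
    rw [Finset.card_union_of_disjoint hdisj,
      Finset.card_image_of_injective _ fun a b hab => mul_left_cancel hab]
  have himg : V.image β ⊆ W.image β := by
    intro x hx
    obtain ⟨v, hv, rfl⟩ := Finset.mem_image.1 hx
    rcases Finset.mem_union.1 hv with hv | hv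
    · exact Finset.mem_image_of_mem _ hv
    · obtain ⟨w, hw, rfl⟩ := Finset.mem_image.1 hv
      have h1 := Finset.mem_filter.1 hw
      rw [h1.2.2]
      exact Finset.mem_image_of_mem _ h1.1
  rw [← hcard]
  exact (Finset.card_le_mul_card_image V L fun x _ => hβ _ x
    fun w hw => (Finset.mem_filter.1 hw).2).trans
    (Nat.mul_le_mul_left _ (Finset.card_le_card himg))

lemma lt_pack_of {A : Set G} {k : ℕ} (E : Set G)
    (hE : ∀ x ∈ E, ∀ y ∈ E, x ≠ y → Disjoint ((fun g => x * g) '' A) ((fun g => y * g) '' A))
    (hk : (k : ℕ∞) < E.encard) : (k : ℕ∞) < pack A := by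
  refine lt_of_lt_of_le hk ?_
  exact le_iSup (fun E : {E : Set G // ∀ x ∈ E, ∀ y ∈ E, x ≠ y →
    Disjoint ((fun g => x * g) '' A) ((fun g => y * g) '' A)} => (E : Set G).encard) ⟨E, hE⟩

lemma rightRel_iff (T : Subgroup G) (x y : G) :
    (Quotient.mk (QuotientGroup.rightRel T) x = Quotient.mk (QuotientGroup.rightRel T) y) ↔
      y * x⁻¹ ∈ T := by
  rw [Quotient.eq, QuotientGroup.rightRel_apply]

/-- The block system given by a finite subgroup containing `e`. -/
noncomputable def finSys (e : G) (m r : ℕ) (ε : ℝ) (hr : 0 < r) (T : Subgroup G)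
    (hT : (T : Set G).Finite) (heT : e ∈ T) (h1 : m * r < Nat.card T)
    (h2 : (Nat.card T : ℝ) ≤ (1 + ε) * (m * r)) : Sys e m r ε where
  X := Quotient (QuotientGroup.rightRel T)
  β := Quotient.mk _
  cap := r
  split := by
    intro A hA
    have h3 : ∀ x : Quotient (QuotientGroup.rightRel T), ∃ c : G → Fin r,
        Set.InjOn c {w | w ∈ A ∧ Quotient.mk (QuotientGroup.rightRel T) w = x} :=
      fun x => exists_injOn_fin _ hr fun W hW => hA x W hW
    choose c hc using h3
    refine ⟨fun w => c (Quotient.mk _ w) w, fun i => ?_⟩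
    apply lt_pack_of (T : Set G)
    · intro x hx y hy hxy
      rw [Set.disjoint_left]
      rintro _ ⟨a, ⟨ha, hai⟩, rfl⟩ ⟨b, ⟨hb, hbi⟩, hab⟩
      simp only at hab
      apply hxy
      have h4 : Quotient.mk (QuotientGroup.rightRel T) a =
          Quotient.mk (QuotientGroup.rightRel T) b := by
        rw [rightRel_iff]
        have : b * a⁻¹ = y⁻¹ * x := by
          rw [eq_inv_mul_iff_mul_eq, ← mul_assoc, hab, mul_inv_cancel_right]
        rw [this]
        exact T.mul_mem (T.inv_mem hy) hx
      have h5 : a = b := by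
        apply hc (Quotient.mk _ b) ⟨ha, h4⟩ ⟨hb, rfl⟩
        have e1 : c (Quotient.mk _ a) a = i := hai
        have e2 : c (Quotient.mk _ b) b = i := hbi
        rw [h4] at e1
        exact e1.trans e2.symm
      subst h5
      exact (mul_right_cancel hab).symm
    · rw [hT.encard_eq_coe_toFinset_card]
      have h6 : hT.toFinset.card = Nat.card T := by
        rw [← Nat.card_eq_card_finite_toFinset hT]
        rfl
      rw [h6]
      exact_mod_cast h1
  folner := by
    intro W
    have hβ : ∀ V : Finset G, ∀ x : Quotient (QuotientGroup.rightRel T),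
        (∀ w ∈ V, Quotient.mk (QuotientGroup.rightRel T) w = x) → V.card ≤ Nat.card T := by
      intro V x hV
      rcases V.eq_empty_or_nonempty with h0 | ⟨v, hv⟩
      · rw [h0]
        simp
      · have h6 : hT.toFinset.card = Nat.card T := by
          rw [← Nat.card_eq_card_finite_toFinset hT]
          rfl
        rw [← h6]
        apply Finset.card_le_card_of_injOn fun w => w * v⁻¹
        · intro w hw
          have hw' := hV w hw
          have hv' := hV v hv
          rw [Finset.mem_coe, Set.Finite.mem_toFinset]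
          exact (rightRel_iff T v w).1 (hv'.trans hw'.symm)
        · intro a _ b _ hab
          exact mul_right_cancel hab
    have h3 := card_add_le (e := e) (Quotient.mk (QuotientGroup.rightRel T)) hβ W
    rw [bdin_eq e _ (fun w => by
      rw [rightRel_iff]
      have : w * (e * w)⁻¹ = e⁻¹ := by group
      rw [this]
      exact T.inv_mem heT)] at h3
    have h5 : ((W.card + bd e W : ℕ) : ℝ) ≤
        ((Nat.card T * nb (Quotient.mk (QuotientGroup.rightRel T)) W : ℕ) : ℝ) := by
      exact_mod_cast h3
    push_cast at h5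
    have h7 : (Nat.card T : ℝ) * (nb (Quotient.mk (QuotientGroup.rightRel T)) W : ℝ) ≤
        (1 + ε) * (m * r) * (nb (Quotient.mk (QuotientGroup.rightRel T)) W : ℝ) :=
      mul_le_mul_of_nonneg_right h2 (Nat.cast_nonneg _)
    linarith

end Pool.Agent.Helper77.PB
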