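import Mathlib
import Pool.Agent.Helper77.PB.FinSys

/-!
The block system given by an element of infinite order.
-/

namespace Pool.Agent.Helper77.PB

open Dens

universe u

section count

lemma ediv_eq_of {a b L : ℤ} (hL : 0 < L) (h1 : b * L ≤ a) (h2 : a < b * L + L) : a / L = b := by
  apply le_antisymm
  · apply Int.lt_add_one_iff.1
    apply Int.ediv_lt_of_lt_mul hL
    linarith
  · exact Int.le_ediv_of_mul_le hL h1

lemma exists_counting (S : Set ℤ) [DecidablePred (· ∈ S)] :
    ∃ N : ℤ → ℤ, ∀ s, N (s + 1) = N s + (if s ∈ S then 1 else 0) := by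
  refine ⟨fun s => (∑ i ∈ Finset.Ico 0 s, if i ∈ S then 1 else 0) -
    ∑ i ∈ Finset.Ico s 0, if i ∈ S then 1 else 0, fun s => ?_⟩
  rcases le_or_gt 0 s with hs | hs
  · have h1 : Finset.Ico (s + 1) 0 = ∅ := Finset.Ico_eq_empty (by omega)
    have h2 : Finset.Ico s 0 = ∅ := Finset.Ico_eq_empty (by omega)
    have h3 : Finset.Ico 0 (s + 1) = insert s (Finset.Ico 0 s) := by
      ext x
      simp only [Finset.mem_Ico, Finset.mem_insert]
      omega
    simp only [h1, h2, h3, Finset.sum_empty, sub_zero]
    rw [Finset.sum_insert (by simp), add_comm]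
  · have h1 : Finset.Ico 0 (s + 1) = ∅ := Finset.Ico_eq_empty (by omega)
    have h2 : Finset.Ico 0 s = ∅ := Finset.Ico_eq_empty (by omega)
    have h3 : Finset.Ico s 0 = insert s (Finset.Ico (s + 1) 0) := by
      ext x
      simp only [Finset.mem_Ico, Finset.mem_insert]
      omega
    simp only [h1, h2, h3, Finset.sum_empty, zero_sub]
    rw [Finset.sum_insert (by simp)]
    ring

lemma counting_sub (S : Set ℤ) [DecidablePred (· ∈ S)] (N : ℤ → ℤ)
    (hN : ∀ s, N (s + 1) = N s + (if s ∈ S then 1 else 0)) (s s' : ℤ) (h : s ≤ s') :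
    N s' = N s + ((Finset.Ico s s').filter (· ∈ S)).card := by
  induction s', h using Int.leInduction with
  | base => simp
  | succ n hn ih =>
    have h3 : Finset.Ico s (n + 1) = insert n (Finset.Ico s n) := by
      ext x
      simp only [Finset.mem_Ico, Finset.mem_insert]
      omega
    rw [hN, ih, h3, Finset.filter_insert]
    split_ifs with hS
    · rw [Finset.card_insert_of_notMem (by simp)]
      push_cast
      ring
    · simp

lemma window_le (S : Set ℤ) [DecidablePred (· ∈ S)] {c L M r : ℕ} (hL : 0 < L)
    (hS : ∀ b : ℤ, ((Finset.Ico (b * L) (b * L + L)).filter (· ∈ S)).card ≤ c)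
    (hr : c * (M / L + 2) ≤ r) (s : ℤ) :
    ((Finset.Ico s (s + M + 1)).filter (· ∈ S)).card ≤ r := by
  have hL' : (0 : ℤ) < L := by exact_mod_cast hL
  set V := (Finset.Ico s (s + M + 1)).filter (· ∈ S) with hV
  have h1 : V.card ≤ c * (V.image fun x => x / (L : ℤ)).card := by
    apply Finset.card_le_mul_card_image
    intro b _
    refine le_trans (Finset.card_le_card ?_) (hS b)
    intro x hx
    rw [Finset.mem_filter] at hx ⊢
    refine ⟨?_, (Finset.mem_filter.1 hx.1).2⟩
    rw [Finset.mem_Ico]
    have h2 := Int.emod_add_mul_ediv x L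
    have h3 := Int.emod_nonneg x hL'.ne'
    have h4 := Int.emod_lt_of_pos x hL'
    rw [hx.2] at h2
    constructor <;> nlinarith
  have h2 : (V.image fun x => x / (L : ℤ)) ⊆ Finset.Icc (s / L) ((s + M) / L) := by
    intro b hb
    obtain ⟨x, hx, rfl⟩ := Finset.mem_image.1 hb
    have hx' := Finset.mem_Ico.1 (Finset.mem_filter.1 hx).1
    rw [Finset.mem_Icc]
    exact ⟨Int.ediv_le_ediv hL' hx'.1, Int.ediv_le_ediv hL' (by omega)⟩
  have h3 := Finset.card_le_card h2
  rw [Int.card_Icc] at h3
  have h4 : (s + M) / (L : ℤ) < s / L + (M / L : ℕ) + 2 := by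
    apply Int.ediv_lt_of_lt_mul hL'
    have h5 := Int.emod_add_mul_ediv s L
    have h6 := Int.emod_lt_of_pos s hL'
    have h7 : (M : ℤ) < ((M / L : ℕ) + 1) * L := by
      have := Nat.lt_div_mul_add hL (a := M)
      have h8 : M < (M / L + 1) * L := by
        rw [add_mul, one_mul]
        exact this
      exact_mod_cast h8
    nlinarith
  have h5 : (V.image fun x => x / (L : ℤ)).card ≤ M / L + 2 := by
    generalize M / L = q at *
    omega
  exact h1.trans ((Nat.mul_le_mul_left c h5).trans hr)

lemma separation (S : Set ℤ) [DecidablePred (· ∈ S)] {M r : ℕ}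
    (hw : ∀ s : ℤ, ((Finset.Ico s (s + M + 1)).filter (· ∈ S)).card ≤ r) (N : ℤ → ℤ)
    (hN : ∀ s, N (s + 1) = N s + (if s ∈ S then 1 else 0)) (s s' : ℤ) (hs : s ∈ S) (hs' : s' ∈ S)
    (hlt : s < s') (hmod : N s % r = N s' % r) : s + M < s' := by
  by_contra hle
  push Not at hle
  have h1 := counting_sub S N hN s s' hlt.le
  set k := ((Finset.Ico s s').filter (· ∈ S)).card with hk
  have hk1 : 1 ≤ k := by
    apply Finset.card_pos.2
    exact ⟨s, Finset.mem_filter.2 ⟨Finset.mem_Ico.2 ⟨le_rfl, hlt⟩, hs⟩⟩
  have hdvd : (r : ℤ) ∣ k := by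
    have h2 : (r : ℤ) ∣ N s' - N s := Int.ModEq.dvd hmod
    rwa [h1, add_sub_cancel_left] at h2
  have hrk : r ≤ k := Nat.le_of_dvd hk1 (by exact_mod_cast hdvd)
  have h2 : k + 1 ≤ ((Finset.Ico s (s + M + 1)).filter (· ∈ S)).card := by
    have h3 : insert s' ((Finset.Ico s s').filter (· ∈ S)) ⊆
        (Finset.Ico s (s + M + 1)).filter (· ∈ S) := by
      intro x hx
      rcases Finset.mem_insert.1 hx with rfl | hx
      · exact Finset.mem_filter.2 ⟨Finset.mem_Ico.2 ⟨hlt.le, by omega⟩, hs'⟩
      · have hx' := Finset.mem_filter.1 hx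
        have hx'' := Finset.mem_Ico.1 hx'.1
        exact Finset.mem_filter.2 ⟨Finset.mem_Ico.2 ⟨hx''.1, by omega⟩, hx'.2⟩
    have h4 := Finset.card_le_card h3
    rwa [Finset.card_insert_of_notMem (by simp)] at h4
  have h5 := hw s
  omega

end count

variable {G : Type u} [Group G]

section coord

variable (e : G)

/-- The representative of the line through `w`. -/
noncomputable def rep (w : G) : G :=
  (Quotient.mk (QuotientGroup.rightRel (Subgroup.zpowers e)) w).out

lemma rep_zpow_mul (k : ℤ) (w : G) : rep e (e ^ k * w) = rep e w := by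
  unfold rep
  congr 1
  rw [rightRel_iff]
  have : w * (e ^ k * w)⁻¹ = e ^ (-k) := by group
  rw [this]
  exact Subgroup.zpow_mem_zpowers e _

lemma exists_coord (w : G) : ∃ a : ℤ, e ^ a * rep e w = w := by
  have h1 : Quotient.mk (QuotientGroup.rightRel (Subgroup.zpowers e)) (rep e w) =
    Quotient.mk (QuotientGroup.rightRel (Subgroup.zpowers e)) w := Quotient.out_eq _
  rw [rightRel_iff] at h1
  obtain ⟨a, ha⟩ := Subgroup.mem_zpowers_iff.1 h1
  exact ⟨a, by rw [ha, inv_mul_cancel_right]⟩

/-- The coordinate of `w` on its line. -/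
noncomputable def crd (w : G) : ℤ := (exists_coord e w).choose

lemma crd_spec (w : G) : e ^ (crd e w) * rep e w = w := (exists_coord e w).choose_spec

variable {e} (he : ¬ IsOfFinOrder e)

include he

lemma crd_zpow_mul (k : ℤ) (w : G) : crd e (e ^ k * w) = crd e w + k := by
  have h1 := crd_spec e (e ^ k * w)
  rw [rep_zpow_mul] at h1
  have h2 := crd_spec e w
  apply injective_zpow_iff_not_isOfFinOrder.2 he
  simp only
  apply mul_right_cancel (b := rep e w)
  rw [h1, zpow_add, (Commute.refl e).zpow_zpow (crd e w) k |>.eq, mul_assoc, h2]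

end coord

open Classical in
lemma bd_le {e : G} {X : Type*} (β : G → X) (W : Finset G)
    (hinj : Set.InjOn β {w | β (e * w) ≠ β w}) : bd e W ≤ bdin e β W + nb β W := by
  have h3 : (W.filter fun w => e * w ∉ W) ⊆
      (W.filter fun w => e * w ∉ W ∧ β (e * w) = β w) ∪
      (W.filter fun w => β (e * w) ≠ β w) := by
    intro w hw
    have hw' := Finset.mem_filter.1 hw
    rw [Finset.mem_union, Finset.mem_filter, Finset.mem_filter]
    by_cases h : β (e * w) = β w
    · exact Or.inl ⟨hw'.1, hw'.2, h⟩
    · exact Or.inr ⟨hw'.1, h⟩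
  have h4 : (W.filter fun w => β (e * w) ≠ β w).card ≤ (W.image β).card := by
    apply Finset.card_le_card_of_injOn β
    · intro w hw
      exact Finset.mem_coe.2 (Finset.mem_image_of_mem _ (Finset.mem_filter.1 hw).1)
    · intro w hw w' hw' hww
      exact hinj (Finset.mem_filter.1 hw).2 (Finset.mem_filter.1 hw').2 hww
  exact ((Finset.card_le_card h3).trans (Finset.card_union_le _ _)).trans
    (Nat.add_le_add_left h4 _)

/-- The block system given by an element of infinite order. -/
noncomputable def lineSys (e : G) (he : ¬ IsOfFinOrder e) (m r c : ℕ) (ε : ℝ) (hr : 0 < r)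
    (hc : 2 * c * (m * c + 1) ≤ r) (hε : 2 ≤ ε * (m * c)) : Sys e m r ε where
  X := G × ℤ
  β := fun w => (rep e w, crd e w / ((m * c + 1 : ℕ) : ℤ))
  cap := c
  split := by
    classical
    intro A hA
    set L := m * c + 1 with hL
    have hLpos : 0 < L := by omega
    have hL' : (0 : ℤ) < (L : ℤ) := by exact_mod_cast hLpos
    let S : G → Set ℤ := fun x => {s | e ^ s * x ∈ A}
    have hrep : ∀ w, rep e (rep e w) = rep e w := by
      intro w
      conv_rhs => rw [← crd_spec e w]
      rw [rep_zpow_mul]
    have hcrd0 : ∀ w, crd e (rep e w) = 0 := by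
      intro w
      have h1 := crd_zpow_mul he (crd e w) (rep e w)
      rw [crd_spec] at h1
      omega
    have hblock : ∀ w, ∀ b : ℤ,
        ((Finset.Ico (b * L) (b * L + L)).filter (· ∈ S (rep e w))).card ≤ c := by
      intro w b
      have h1 := hA (rep e w, b) (((Finset.Ico (b * L) (b * L + L)).filter
        (· ∈ S (rep e w))).image fun s => e ^ s * rep e w) (by
          intro y hy
          obtain ⟨s, hs, rfl⟩ := Finset.mem_image.1 hy
          have hs' := Finset.mem_filter.1 hs
          have hs'' := Finset.mem_Ico.1 hs'.1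
          refine ⟨hs'.2, ?_⟩
          rw [rep_zpow_mul, hrep, crd_zpow_mul he, hcrd0, zero_add]
          congr 1
          apply ediv_eq_of hL' <;> nlinarith)
      rwa [Finset.card_image_of_injective] at h1
      intro s s' hss
      exact injective_zpow_iff_not_isOfFinOrder.2 he (mul_right_cancel hss)
    have hcount : c * (m * r / L + 2) ≤ r := by
      have h1 : m * r / L * L ≤ m * r := Nat.div_mul_le_self _ _
      have h2 : c * (m * r / L + 2) * L ≤ r * L := by
        calc c * (m * r / L + 2) * L = c * (m * r / L * L) + 2 * c * L := by ring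
          _ ≤ c * (m * r) + r := Nat.add_le_add (Nat.mul_le_mul_left _ h1) hc
          _ = r * L := by rw [hL]; ring
      exact Nat.le_of_mul_le_mul_right h2 hLpos
    choose N hN using fun x : G => exists_counting (S x)
    have hsep : ∀ w, ∀ s s' : ℤ, s ∈ S (rep e w) → s' ∈ S (rep e w) → s < s' →
        N (rep e w) s % r = N (rep e w) s' % r → s + ((m * r : ℕ) : ℤ) < s' := by
      intro w s s' hs hs' hlt hmod
      exact separation (S (rep e w)) (fun s => window_le (S (rep e w)) hLpos (hblock w) hcount s)
        (N (rep e w)) (hN _) s s' hs hs' hlt hmod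
    have hr' : (0 : ℤ) < r := by exact_mod_cast hr
    refine ⟨fun w => ⟨(N (rep e w) (crd e w) % r).toNat, ?_⟩, fun i => ?_⟩
    · have h1 := Int.emod_lt_of_pos (N (rep e w) (crd e w)) hr'
      have h2 := Int.emod_nonneg (N (rep e w) (crd e w)) hr'.ne'
      omega
    apply lt_pack_of (Set.range fun j : Fin (m * r + 1) => e ^ (j : ℕ))
    · rintro _ ⟨j, rfl⟩ _ ⟨j', rfl⟩ hjj
      rw [Set.disjoint_left]
      rintro _ ⟨a, ⟨ha, hai⟩, rfl⟩ ⟨b, ⟨hb, hbi⟩, hab⟩
      simp only at hab
      apply hjj
      have h1 : rep e a = rep e b := by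
        have h2 := rep_zpow_mul e (j : ℕ) a
        have h3 := rep_zpow_mul e (j' : ℕ) b
        rw [zpow_natCast] at h2 h3
        rw [← h2, ← h3, hab]
      have h4 : crd e a + (j : ℕ) = crd e b + (j' : ℕ) := by
        have h2 := crd_zpow_mul he (j : ℕ) a
        have h3 := crd_zpow_mul he (j' : ℕ) b
        rw [zpow_natCast] at h2 h3
        rw [← h2, ← h3, hab]
      have hmod : N (rep e a) (crd e a) % r = N (rep e b) (crd e b) % r := by
        have h5 : (N (rep e a) (crd e a) % r).toNat = (N (rep e b) (crd e b) % r).toNat := by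
          rw [Fin.ext_iff] at hai hbi
          exact hai.trans hbi.symm
        have h6 := Int.emod_nonneg (N (rep e a) (crd e a)) hr'.ne'
        have h7 := Int.emod_nonneg (N (rep e b) (crd e b)) hr'.ne'
        omega
      have haS : crd e a ∈ S (rep e a) := by
        change e ^ crd e a * rep e a ∈ A
        rwa [crd_spec]
      have hbS : crd e b ∈ S (rep e a) := by
        change e ^ crd e b * rep e a ∈ A
        rwa [h1, crd_spec]
      rw [← h1] at hmod
      have hj := j.2
      have hj' := j'.2
      have h8 : crd e a = crd e b := by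
        rcases lt_trichotomy (crd e a) (crd e b) with h | h | h
        · have := hsep a _ _ haS hbS h hmod
          push_cast at this
          exfalso
          have h9 : ((j : ℕ) : ℤ) < m * r + 1 := by exact_mod_cast hj
          omega
        · exact h
        · have := hsep a _ _ hbS haS h hmod.symm
          push_cast at this
          exfalso
          have h9 : ((j' : ℕ) : ℤ) < m * r + 1 := by exact_mod_cast hj'
          omega
      have h10 : (j : ℕ) = (j' : ℕ) := by omega
      simp only [h10]
    · have hinj : Function.Injective fun j : Fin (m * r + 1) => e ^ (j : ℕ) := by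
        intro j j' hjj
        exact Fin.ext (injective_pow_iff_not_isOfFinOrder.2 he hjj)
      rw [← Set.image_univ, hinj.encard_image, Set.encard_univ]
      simp only [ENat.card_eq_coe_fintype_card, Fintype.card_fin]
      exact_mod_cast Nat.lt_succ_self _
  folner := by
    classical
    intro W
    set L := m * c + 1 with hL
    have hLpos : 0 < L := by omega
    have hL' : (0 : ℤ) < (L : ℤ) := by exact_mod_cast hLpos
    set β : G → G × ℤ := fun w => (rep e w, crd e w / (L : ℤ)) with hβdef
    have hβ : ∀ V : Finset G, ∀ x, (∀ w ∈ V, β w = x) → V.card ≤ L := by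
      rintro V ⟨x, b⟩ hV
      have h1 : V.card ≤ (Finset.Ico (b * L) (b * L + L)).card := by
        apply Finset.card_le_card_of_injOn (crd e)
        · intro w hw
          have h2 := hV w hw
          simp only [hβdef, Prod.mk.injEq] at h2
          rw [Finset.mem_coe, Finset.mem_Ico]
          have h3 := Int.emod_add_mul_ediv (crd e w) L
          have h4 := Int.emod_nonneg (crd e w) hL'.ne'
          have h5 := Int.emod_lt_of_pos (crd e w) hL'
          rw [h2.2] at h3
          constructor <;> nlinarith
        · intro w hw w' hw' hww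
          have h2 := hV w hw
          have h3 := hV w' hw'
          simp only [hβdef, Prod.mk.injEq] at h2 h3
          rw [← crd_spec e w, ← crd_spec e w', hww, h2.1, h3.1]
      rw [Int.card_Ico] at h1
      omega
    have h1 := card_add_le (e := e) β hβ W
    -- the boundary of the blocks
    have h2 : bd e W ≤ bdin e β W + nb β W := by
      apply bd_le
      intro w hw w' hw' hww
      have key : ∀ w, β (e * w) ≠ β w → crd e w % L = L - 1 := by
        intro w hw
        by_contra hne
        apply hw
        have h5 := rep_zpow_mul e 1 w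
        have h6 := crd_zpow_mul he 1 w
        rw [zpow_one] at h5 h6
        simp only [hβdef]
        rw [h5, h6]
        congr 1
        have h7 := Int.emod_add_mul_ediv (crd e w) L
        have h8 := Int.emod_nonneg (crd e w) hL'.ne'
        have h9 := Int.emod_lt_of_pos (crd e w) hL'
        have : crd e w % L < L - 1 := by omega
        apply ediv_eq_of hL' <;> nlinarith
      have h5 := key w hw
      have h6 := key w' hw'
      simp only [hβdef, Prod.mk.injEq] at hww
      have h7 := Int.emod_add_mul_ediv (crd e w) L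
      have h8 := Int.emod_add_mul_ediv (crd e w') L
      have h9 : crd e w = crd e w' := by
        rw [← h7, ← h8, h5, h6, hww.2]
      rw [← crd_spec e w, ← crd_spec e w', h9, hww.1]
    have h3 : (W.card : ℝ) + bdin e β W ≤ L * nb β W := by exact_mod_cast h1
    have h4 : (bd e W : ℝ) ≤ bdin e β W + nb β W := by exact_mod_cast h2
    have h5 : ((L : ℝ) + 1) * nb β W ≤ (1 + ε) * (m * c) * nb β W := by
      apply mul_le_mul_of_nonneg_right _ (Nat.cast_nonneg _)
      rw [hL]
      push_cast
      linarith
    linarith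

end Pool.Agent.Helper77.PB
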