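import Mathlib
import Pool.Agent.Helper77.PB.LineSys
import Pool.Agent.Helper77.PB.Limit

/-!
Groups with property (b) have a measure invariant under many elements.
-/

namespace Pool.Agent.Helper77.PB

open Dens

universe u

/-- `g` is good with respect to a set `𝒦` of natural numbers: it has infinite order, or for all
but finitely many `k ∈ 𝒦` it lies in a finite subgroup of order `k`. -/
def KGood {G : Type u} [Group G] (𝒦 : Set ℕ) (g : G) : Prop :=
  ¬ IsOfFinOrder g ∨ ∃ k₀ : ℕ, ∀ k ∈ 𝒦, k₀ ≤ k →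
    ∃ T : Subgroup G, g ∈ T ∧ (T : Set G).Finite ∧ Nat.card T = k

variable {G : Type u} [Group G]

theorem inv_measure_of_propB (hG : PropB G) (𝒦 : Set ℕ) (h𝒦 : 𝒦.Infinite) :
    ∃ μ : Measure G, ∀ g, KGood 𝒦 g → ∀ A, μ.val ((fun x => g * x) '' A) = μ.val A := by
  classical
  apply measure_of_folner {g | KGood 𝒦 g}
  intro Φ hΦ δ hδ
  rcases Φ.eq_empty_or_nonempty with rfl | hne
  · exact ⟨{1}, Finset.singleton_nonempty _, fun g hg => absurd hg (Finset.notMem_empty g)⟩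
  set m := Φ.card with hm
  have hmpos : 0 < m := hne.card_pos
  have hmR : (0 : ℝ) < m := by exact_mod_cast hmpos
  set ε : ℝ := δ / m with hε
  have hεpos : 0 < ε := by positivity
  obtain ⟨c, hc⟩ := exists_nat_ge (2 / (ε * m))
  have hc' : 2 ≤ ε * (m * c) := by
    rw [div_le_iff₀ (by positivity)] at hc
    linarith
  obtain ⟨R, hR⟩ := exists_nat_ge (1 / ε)
  have hR' : 1 ≤ ε * R := by
    rw [div_le_iff₀ hεpos] at hR
    linarith
  have h1 : ∀ g ∈ Φ, ∃ k₀ : ℕ, ∀ k ∈ 𝒦, k₀ ≤ k → (¬ IsOfFinOrder g ∨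
      ∃ T : Subgroup G, g ∈ T ∧ (T : Set G).Finite ∧ Nat.card T = k) := by
    intro g hg
    rcases hΦ hg with h | ⟨k₀, hk₀⟩
    · exact ⟨0, fun k _ _ => Or.inl h⟩
    · exact ⟨k₀, fun k hk hkk => Or.inr (hk₀ k hk hkk)⟩
  choose! k₀ hk₀ using h1
  obtain ⟨k, hk, hkgt⟩ := h𝒦.exists_gt (max (Φ.sup k₀) (m * (R + 2 * c * (m * c + 1) + 1)))
  have hk1 : Φ.sup k₀ < k := lt_of_le_of_lt (le_max_left _ _) hkgt
  have hk2 : m * (R + 2 * c * (m * c + 1) + 1) < k := lt_of_le_of_lt (le_max_right _ _) hkgt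
  set r := (k - 1) / m with hr
  have hrlow : R + 2 * c * (m * c + 1) + 1 ≤ r := by
    rw [hr, Nat.le_div_iff_mul_le hmpos, mul_comm]
    omega
  have hrpos : 0 < r := by omega
  have hmr : m * r < k := by
    have := Nat.mul_div_le (k - 1) m
    rw [← hr] at this
    omega
  have hkm : k ≤ m * (r + 1) := by
    have := Nat.lt_mul_div_succ (k - 1) hmpos
    rw [← hr] at this
    omega
  have hkε : (k : ℝ) ≤ (1 + ε) * (m * r) := by
    have h2 : (k : ℝ) ≤ m * (r + 1) := by exact_mod_cast hkm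
    have h3 : (R : ℝ) ≤ r := by
      have : R ≤ r := by omega
      exact_mod_cast this
    have h4 : 1 ≤ ε * r := hR'.trans (mul_le_mul_of_nonneg_left h3 hεpos.le)
    nlinarith
  let e : Fin m → G := fun t => (Φ.equivFin.symm t : G)
  have he : ∀ t, e t ∈ Φ := fun t => (Φ.equivFin.symm t).2
  have hS : ∀ t, Nonempty (Sys (e t) m r ε) := by
    intro t
    rcases hk₀ (e t) (he t) k hk ((Finset.le_sup (he t)).trans hk1.le) with h | ⟨T, hT1, hT2, hT3⟩
    · exact ⟨lineSys (e t) h m r c ε hrpos (by omega) hc'⟩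
    · exact ⟨finSys (e t) m r ε hrpos T hT2 hT1 (by omega) (by rw [hT3]; exact hkε)⟩
  obtain ⟨W, hW, hW'⟩ := exists_folner_of_sys hG hmpos hrpos hεpos.le e fun t => (hS t).some
  refine ⟨W, hW, fun g hg => ?_⟩
  have h2 := hW' (Φ.equivFin ⟨g, hg⟩)
  simp only [e, Equiv.symm_apply_apply] at h2
  have h3 : ε * m = δ := by
    rw [hε]
    field_simp
  rwa [h3] at h2

end Pool.Agent.Helper77.PB
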