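import Mathlib
import Pool.Agent.Helper77.PB.Main
import Pool.Agent.Helper77.Dens.Paradox

/-!
The amenable radical and property (b).
-/

namespace Pool.Agent.Helper77.PB

open Dens Pointwise

universe u

variable {G : Type u} [Group G]

open Classical in
lemma card_add_bd_le (E : Finset G) (h1 : (1 : G) ∈ E) (g : G) (hg : g ∈ E) (W : Finset G) :
    W.card + bd g W ≤ (E * W).card := by
  unfold bd
  set F := W.filter fun w => g * w ∉ W with hF
  have hdisj : Disjoint W (F.image fun w => g * w) := by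
    rw [Finset.disjoint_left]
    intro y hy hy'
    obtain ⟨w, hw, rfl⟩ := Finset.mem_image.1 hy'
    exact (Finset.mem_filter.1 hw).2 hy
  have hcard : (W ∪ F.image fun w => g * w).card = W.card + F.card := by
    rw [Finset.card_union_of_disjoint hdisj,
      Finset.card_image_of_injective _ fun a b hab => mul_left_cancel hab]
  rw [← hcard]
  apply Finset.card_le_card
  intro y hy
  rcases Finset.mem_union.1 hy with hy | hy
  · rw [← one_mul y]
    exact Finset.mul_mem_mul h1 hy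
  · obtain ⟨w, hw, rfl⟩ := Finset.mem_image.1 hy
    exact Finset.mul_mem_mul hg (Finset.mem_filter.1 hw).1

theorem folner_of_amenable (hG : Amenable G) (Φ : Finset G) (δ : ℝ) (hδ : 0 < δ) :
    ∃ W : Finset G, W.Nonempty ∧ ∀ g ∈ Φ, (bd g W : ℝ) ≤ δ * W.card := by
  classical
  by_contra hcon
  push Not at hcon
  set E : Finset G := insert 1 Φ with hE
  have hexp : ∀ W : Finset G, (1 + δ) * W.card ≤ ((E * W).card : ℝ) := by
    intro W
    rcases W.eq_empty_or_nonempty with rfl | hW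
    · simp
    obtain ⟨g, hg, hgW⟩ := hcon W hW
    have h1 := card_add_bd_le E (Finset.mem_insert_self _ _) g (Finset.mem_insert_of_mem hg) W
    have h2 : ((W.card + bd g W : ℕ) : ℝ) ≤ ((E * W).card : ℕ) := by
      convert (Nat.cast_le (α := ℝ)).2 h1
    push_cast at h2
    linarith
  have hpow : ∀ r : ℕ, ∀ W : Finset G, (1 + δ) ^ r * W.card ≤ ((E ^ r * W).card : ℝ) := by
    intro r
    induction r with
    | zero => intro W; simp
    | succ r ih =>
      intro W
      have h1 := hexp (E ^ r * W)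
      rw [pow_succ' E, mul_assoc]
      refine le_trans ?_ h1
      rw [pow_succ', mul_assoc]
      exact mul_le_mul_of_nonneg_left (ih W) (by linarith)
  obtain ⟨r, hr⟩ := pow_unbounded_of_one_lt 2 (show 1 < 1 + δ by linarith)
  apply Dens.not_amenable_of_doubling (E ^ r) _ hG
  intro W
  have h1 := hpow r W
  have h2 : (2 : ℝ) * W.card ≤ ((E ^ r * W).card : ℝ) := by
    refine le_trans ?_ h1
    exact mul_le_mul_of_nonneg_right hr.le (Nat.cast_nonneg _)
  have h3 : 2 * W.card ≤ (E ^ r * W).card := by exact_mod_cast h2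
  convert h3
  rfl

/-- A measure on `G` invariant under a subgroup `N` shows that `N` is amenable. -/
theorem amenable_of_inv_measure (N : Subgroup G) (μ : Measure G)
    (h : ∀ g ∈ N, ∀ A, μ.val ((fun x => g * x) '' A) = μ.val A) : Amenable N := by
  let rp : G → G := fun w => (Quotient.mk (QuotientGroup.rightRel N) w).out
  have hrp : ∀ w, w * (rp w)⁻¹ ∈ N := by
    intro w
    have h1 : Quotient.mk (QuotientGroup.rightRel N) (rp w) =
      Quotient.mk (QuotientGroup.rightRel N) w := Quotient.out_eq _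
    rwa [rightRel_iff] at h1
  let ν : G → N := fun w => ⟨w * (rp w)⁻¹, hrp w⟩
  have hν : ∀ (n : N) (w : G), ν (n * w) = n * ν w := by
    intro n w
    have h1 : rp (n * w) = rp w := by
      simp only [rp]
      congr 1
      rw [rightRel_iff]
      have : w * (n * w)⁻¹ = (n : G)⁻¹ := by group
      rw [this]
      exact N.inv_mem n.2
    apply Subtype.ext
    change (n * w : G) * (rp (n * w))⁻¹ = n * (w * (rp w)⁻¹)
    rw [h1, mul_assoc]
  refine ⟨⟨fun B => μ.val (ν ⁻¹' B), fun B => μ.nonneg _, ?_, ?_⟩, ?_⟩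
  · rw [Set.preimage_univ]
    exact μ.univ
  · intro A B hAB
    rw [Set.preimage_union]
    exact μ.union _ _ (hAB.preimage ν)
  · intro n B
    simp only
    have h1 : ν ⁻¹' ((fun x => n * x) '' B) = (fun x => (n : G) * x) '' (ν ⁻¹' B) := by
      ext w
      simp only [Set.mem_preimage, Set.mem_image]
      constructor
      · rintro ⟨b, hb, hbw⟩
        refine ⟨(n : G)⁻¹ * w, ?_, by group⟩
        have h2 : ν ((n⁻¹ : N) * w) = n⁻¹ * ν w := hν n⁻¹ w
        have h3 : ((n⁻¹ : N) : G) = (n : G)⁻¹ := rfl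
        rw [h3] at h2
        rw [h2, ← hbw, inv_mul_cancel_left]
        exact hb
      · rintro ⟨x, hx, rfl⟩
        exact ⟨ν x, hx, (hν n x).symm⟩
    rw [h1]
    exact h n n.2 _

/-- The Følner condition for a subgroup. -/
def FolnerIn (N : Subgroup G) : Prop :=
  ∀ Φ : Finset G, (Φ : Set G) ⊆ N → ∀ δ : ℝ, 0 < δ →
    ∃ W : Finset G, W.Nonempty ∧ (W : Set G) ⊆ N ∧ ∀ g ∈ Φ, (bd g W : ℝ) ≤ δ * W.card

lemma bd_map (N : Subgroup G) (g : N) (W : Finset N) :
    bd (g : G) (W.map ⟨Subtype.val, Subtype.val_injective⟩) = bd g W := by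
  classical
  unfold bd
  rw [Finset.filter_map, Finset.card_map]
  congr 1
  ext w
  simp only [Finset.mem_filter, Function.comp_apply, Finset.mem_map, Function.Embedding.coeFn_mk,
    and_congr_right_iff, not_iff_not]
  intro _
  constructor
  · rintro ⟨y, hy, hyw⟩
    have : g * w = y := Subtype.ext hyw.symm
    rwa [this]
  · intro h
    exact ⟨g * w, h, rfl⟩

lemma folnerIn_of_amenable (N : Subgroup G) (hN : Amenable N) : FolnerIn N := by
  classical
  intro Φ hΦ δ hδ
  obtain ⟨W, hW, hW'⟩ := folner_of_amenable hN (Φ.subtype (· ∈ N)) δ hδ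
  refine ⟨W.map ⟨Subtype.val, Subtype.val_injective⟩, hW.map, ?_, fun g hg => ?_⟩
  · intro x hx
    obtain ⟨y, _, rfl⟩ := Finset.mem_map.1 (Finset.mem_coe.1 hx)
    exact y.2
  · have h1 := hW' ⟨g, hΦ hg⟩ (by simpa using hg)
    have h2 := bd_map N ⟨g, hΦ hg⟩ W
    simp only at h2
    rw [h2, Finset.card_map]
    exact h1

lemma amenable_of_folnerIn (N : Subgroup G) (hN : FolnerIn N) : Amenable N := by
  obtain ⟨μ, hμ⟩ := measure_of_folner (N : Set G) fun Φ hΦ δ hδ => by
    obtain ⟨W, hW, _, hW'⟩ := hN Φ hΦ δ hδ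
    exact ⟨W, hW, hW'⟩
  exact amenable_of_inv_measure N μ hμ

/-- The Følner condition is inherited by extensions. -/
theorem folnerIn_comap (R : Subgroup G) [R.Normal] (hR : FolnerIn R) (M : Subgroup (G ⧸ R))
    (hM : FolnerIn M) : FolnerIn (M.comap (QuotientGroup.mk' R)) := by
  classical
  intro Φ hΦ δ hδ
  obtain ⟨W₁, hW₁, hW₁M, hW₁'⟩ := hM (Φ.image fun g : G => (g : G ⧸ R)) (by
    intro x hx
    obtain ⟨g, hg, rfl⟩ := Finset.mem_image.1 (Finset.mem_coe.1 hx)
    exact hΦ hg) (δ / 2) (by linarith)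
  let σ : G ⧸ R → G := Quotient.out
  have hσ : ∀ x, ((σ x : G) : G ⧸ R) = x := fun x => Quotient.out_eq' x
  let ρ : G → G ⧸ R → G := fun g x => (σ ((g : G ⧸ R) * x))⁻¹ * (g * σ x)
  have hρ : ∀ (g : G) (x : G ⧸ R), ρ g x ∈ R := by
    intro g x
    rw [← QuotientGroup.eq, hσ]
    rw [QuotientGroup.mk_mul, hσ]
  have hρ' : ∀ (g : G) (x : G ⧸ R), g * σ x = σ ((g : G ⧸ R) * x) * ρ g x := by
    intro g x
    simp only [ρ]
    rw [mul_inv_cancel_left]
  obtain ⟨V, hV, hVR, hV'⟩ := hR ((Φ ×ˢ W₁).image fun p => ρ p.1 p.2) (by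
    intro x hx
    obtain ⟨p, _, rfl⟩ := Finset.mem_image.1 (Finset.mem_coe.1 hx)
    exact hρ _ _) (δ / 2) (by linarith)
  let f : (G ⧸ R) × G → G := fun p => σ p.1 * p.2
  have hfmk : ∀ x, ∀ v ∈ V, ((f (x, v) : G) : G ⧸ R) = x := by
    intro x v hv
    simp only [f]
    rw [QuotientGroup.mk_mul, hσ]
    have : ((v : G) : G ⧸ R) = 1 := (QuotientGroup.eq_one_iff v).2 (hVR hv)
    rw [this, mul_one]
  have hinj : Set.InjOn f (W₁ ×ˢ V : Finset _) := by
    rintro ⟨x, v⟩ hx ⟨y, w⟩ hy hxy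
    rw [Finset.mem_coe, Finset.mem_product] at hx hy
    have h1 := hfmk x v hx.2
    have h2 := hfmk y w hy.2
    rw [hxy, h2] at h1
    subst h1
    simp only [f] at hxy
    rw [mul_left_cancel hxy]
  refine ⟨(W₁ ×ˢ V).image f, (hW₁.product hV).image f, ?_, fun g hg => ?_⟩
  · intro x hx
    obtain ⟨⟨y, v⟩, hp, rfl⟩ := Finset.mem_image.1 (Finset.mem_coe.1 hx)
    rw [Finset.mem_product] at hp
    have h1 := hfmk y v hp.2
    change ((f (y, v) : G) : G ⧸ R) ∈ M
    rw [h1]
    exact hW₁M hp.1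
  · rw [Finset.card_image_of_injOn hinj, Finset.card_product]
    have h1 : bd g ((W₁ ×ˢ V).image f) ≤ bd (g : G ⧸ R) W₁ * V.card +
        ∑ x ∈ W₁, bd (ρ g x) V := by
      unfold bd
      have h2 : (((W₁ ×ˢ V).image f).filter fun w => g * w ∉ (W₁ ×ˢ V).image f) ⊆
          (((W₁.filter fun x => (g : G ⧸ R) * x ∉ W₁) ×ˢ V) ∪
          (W₁.biUnion fun x => (V.filter fun v => ρ g x * v ∉ V).image fun v => (x, v))).image
            f := by
        intro w hw
        rw [Finset.mem_filter] at hw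
        obtain ⟨⟨x, v⟩, hp, rfl⟩ := Finset.mem_image.1 hw.1
        rw [Finset.mem_product] at hp
        apply Finset.mem_image_of_mem
        rw [Finset.mem_union]
        by_cases hx : (g : G ⧸ R) * x ∈ W₁
        · right
          rw [Finset.mem_biUnion]
          refine ⟨x, hp.1, Finset.mem_image.2 ⟨v, Finset.mem_filter.2 ⟨hp.2, fun hv => ?_⟩, rfl⟩⟩
          apply hw.2
          refine Finset.mem_image.2 ⟨((g : G ⧸ R) * x, ρ g x * v),
            Finset.mem_product.2 ⟨hx, hv⟩, ?_⟩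
          simp only [f]
          rw [← mul_assoc, ← hρ', mul_assoc]
        · left
          exact Finset.mem_product.2 ⟨Finset.mem_filter.2 ⟨hp.1, hx⟩, hp.2⟩
      refine (Finset.card_le_card h2).trans (Finset.card_image_le.trans
        ((Finset.card_union_le _ _).trans (Nat.add_le_add ?_ ?_)))
      · rw [Finset.card_product]
        exact Nat.mul_le_mul_right _ (le_of_eq (by congr))
      · refine Finset.card_biUnion_le.trans (Finset.sum_le_sum fun x _ => ?_)
        exact Finset.card_image_le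
    have h2 : (bd (g : G ⧸ R) W₁ : ℝ) ≤ δ / 2 * W₁.card :=
      hW₁' _ (Finset.mem_image_of_mem _ hg)
    have h3 : ∀ x ∈ W₁, (bd (ρ g x) V : ℝ) ≤ δ / 2 * V.card := fun x hx =>
      hV' _ (Finset.mem_image.2 ⟨(g, x), Finset.mem_product.2 ⟨hg, hx⟩, rfl⟩)
    have h4 : (∑ x ∈ W₁, (bd (ρ g x) V : ℝ)) ≤ W₁.card * (δ / 2 * V.card) := by
      refine (Finset.sum_le_sum h3).trans ?_
      rw [Finset.sum_const, nsmul_eq_mul]
    have h5 : (bd g ((W₁ ×ˢ V).image f) : ℝ) ≤ bd (g : G ⧸ R) W₁ * V.card +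
        ∑ x ∈ W₁, (bd (ρ g x) V : ℝ) := by exact_mod_cast h1
    have h6 : (bd (g : G ⧸ R) W₁ : ℝ) * V.card ≤ δ / 2 * W₁.card * V.card :=
      mul_le_mul_of_nonneg_right h2 (Nat.cast_nonneg _)
    push_cast
    nlinarith

end Pool.Agent.Helper77.PB
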