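import Mathlib
import Pool.Agent.Helper77.PB.Radical

/-!
Property (b) forces strong restrictions modulo the amenable radical.
-/

namespace Pool.Agent.Helper77.PB

open Dens

universe u v

variable {G : Type u} [Group G]

lemma pack_preimage {Q : Type v} [Group Q] (f : G →* Q) (hf : Function.Surjective f) (A : Set Q) :
    pack A ≤ pack (f ⁻¹' A) := by
  apply iSup_le
  rintro ⟨E, hE⟩
  choose s hs using hf
  have hinj : Function.Injective s := fun x y hxy => by rw [← hs x, hxy, hs]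
  simp only
  rw [← hinj.encard_image E]
  refine le_iSup (fun E : {E : Set G // ∀ x ∈ E, ∀ y ∈ E, x ≠ y →
    Disjoint ((fun g => x * g) '' (f ⁻¹' A)) ((fun g => y * g) '' (f ⁻¹' A))} =>
    (E : Set G).encard) ⟨s '' E, ?_⟩
  rintro _ ⟨x, hx, rfl⟩ _ ⟨y, hy, rfl⟩ hxy
  rw [Set.disjoint_left]
  rintro _ ⟨a, ha, rfl⟩ ⟨b, hb, hab⟩
  have h1 := hE x hx y hy fun h => hxy (by rw [h])
  rw [Set.disjoint_left] at h1
  apply h1 ⟨f a, ha, rfl⟩
  refine ⟨f b, hb, ?_⟩
  have h2 := congrArg f hab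
  simp only [map_mul, hs] at h2
  exact h2

/-- Property (b) is inherited by quotients. -/
theorem PropB_of_surjective {Q : Type v} [Group Q] (f : G →* Q) (hf : Function.Surjective f)
    (hG : PropB G) : PropB Q := by
  intro n hn A hA
  obtain ⟨i, hi⟩ := hG n hn (fun i => f ⁻¹' A i)
    ⟨fun i j hij => (hA.1 i j hij).preimage f, fun g => hA.2 (f g)⟩
  exact ⟨i, (pack_preimage f hf (A i)).trans hi⟩

lemma exists_equivariant (N : Subgroup G) : ∃ ν : G → N, ∀ (n : N) (w : G), ν (n * w) = n * ν w := by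
  let rp : G → G := fun w => (Quotient.mk (QuotientGroup.rightRel N) w).out
  have hrp : ∀ w, w * (rp w)⁻¹ ∈ N := by
    intro w
    have h1 : Quotient.mk (QuotientGroup.rightRel N) (rp w) =
      Quotient.mk (QuotientGroup.rightRel N) w := Quotient.out_eq _
    rwa [rightRel_iff] at h1
  refine ⟨fun w => ⟨w * (rp w)⁻¹, hrp w⟩, fun n w => ?_⟩
  have h1 : rp (n * w) = rp w := by
    simp only [rp]
    congr 1
    rw [rightRel_iff]
    have : w * (n * w)⁻¹ = (n : G)⁻¹ := by group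
    rw [this]
    exact N.inv_mem n.2
  apply Subtype.ext
  change (n * w : G) * (rp (n * w))⁻¹ = n * (w * (rp w)⁻¹)
  rw [h1, mul_assoc]

/-- Property (b) is inherited by subgroups. -/
theorem PropB_subgroup (N : Subgroup G) (hG : PropB G) : PropB N := by
  intro n hn A hA
  obtain ⟨ν, hν⟩ := exists_equivariant N
  obtain ⟨i, hi⟩ := hG n hn (fun i => ν ⁻¹' A i)
    ⟨fun i j hij => (hA.1 i j hij).preimage ν, fun g => hA.2 (ν g)⟩
  refine ⟨i, le_trans (iSup_le ?_) hi⟩
  rintro ⟨E, hE⟩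
  simp only
  rw [← Subtype.val_injective.encard_image E]
  refine le_iSup (fun E : {E : Set G // ∀ x ∈ E, ∀ y ∈ E, x ≠ y →
    Disjoint ((fun g => x * g) '' (ν ⁻¹' A i)) ((fun g => y * g) '' (ν ⁻¹' A i))} =>
    (E : Set G).encard) ⟨Subtype.val '' E, ?_⟩
  rintro _ ⟨x, hx, rfl⟩ _ ⟨y, hy, rfl⟩ hxy
  rw [Set.disjoint_left]
  rintro _ ⟨a, ha, rfl⟩ ⟨b, hb, hab⟩
  have h1 := hE x hx y hy fun h => hxy (by rw [h])
  rw [Set.disjoint_left] at h1
  apply h1 ⟨ν a, ha, rfl⟩
  refine ⟨ν b, hb, ?_⟩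
  have h2 := congrArg ν hab
  rw [hν, hν] at h2
  exact h2

lemma folnerIn_bot : FolnerIn (⊥ : Subgroup G) := by
  classical
  intro Φ hΦ δ hδ
  refine ⟨{1}, Finset.singleton_nonempty _, by simp, fun g hg => ?_⟩
  have h1 : g = 1 := Subgroup.mem_bot.1 (hΦ hg)
  subst h1
  have h2 : bd (1 : G) {1} = 0 := by
    unfold bd
    rw [Finset.card_eq_zero, Finset.filter_eq_empty_iff]
    intro x hx
    simpa using hx
  rw [h2]
  simp only [Nat.cast_zero, Finset.card_singleton, Nat.cast_one, mul_one]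
  exact hδ.le

variable (G) in
/-- There is an amenable normal subgroup whose quotient has no nontrivial amenable normal
subgroup. -/
theorem exists_radical : ∃ R : Subgroup G, ∃ _ : R.Normal, FolnerIn R ∧
    ∀ M : Subgroup (G ⧸ R), M.Normal → FolnerIn M → M = ⊥ := by
  classical
  obtain ⟨R, _, hR⟩ := zorn_le_nonempty₀ {N : Subgroup G | N.Normal ∧ FolnerIn N} (by
    intro c hc hchain y hy
    have hdir : DirectedOn (· ≤ ·) c := hchain.directedOn
    have hmem : ∀ x, x ∈ sSup c ↔ ∃ s ∈ c, x ∈ s := fun x =>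
      Subgroup.mem_sSup_of_directedOn ⟨y, hy⟩ hdir
    refine ⟨sSup c, ⟨⟨?_⟩, ?_⟩, fun z hz => le_sSup hz⟩
    · intro x hx g
      obtain ⟨s, hs, hxs⟩ := (hmem x).1 hx
      exact (hmem _).2 ⟨s, hs, (hc hs).1.conj_mem x hxs g⟩
    · have hfin : ∀ Φ : Finset G, (Φ : Set G) ⊆ (sSup c : Subgroup G) →
          ∃ s ∈ c, (Φ : Set G) ⊆ (s : Subgroup G) := by
        intro Φ
        induction Φ using Finset.induction_on with
        | empty => intro _; exact ⟨y, hy, by simp⟩
        | insert a Φ ha ih =>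
          intro hΦ
          rw [Finset.coe_insert, Set.insert_subset_iff] at hΦ
          obtain ⟨s, hs, hs'⟩ := ih hΦ.2
          obtain ⟨t, ht, hat⟩ := (hmem a).1 hΦ.1
          obtain ⟨w, hw, hsw, htw⟩ := hdir s hs t ht
          refine ⟨w, hw, ?_⟩
          rw [Finset.coe_insert, Set.insert_subset_iff]
          exact ⟨htw hat, hs'.trans hsw⟩
      intro Φ hΦ δ hδ
      obtain ⟨s, hs, hs'⟩ := hfin Φ hΦ
      obtain ⟨W, hW, hWs, hW'⟩ := (hc hs).2 Φ hs' δ hδ
      refine ⟨W, hW, hWs.trans ?_, hW'⟩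
      exact fun x hx => (le_sSup hs : s ≤ sSup c) hx) ⊥ ⟨inferInstance, folnerIn_bot⟩
  have hRn : R.Normal := hR.prop.1
  refine ⟨R, hRn, hR.prop.2, fun M hMn hM => ?_⟩
  have h1 : FolnerIn (M.comap (QuotientGroup.mk' R)) := folnerIn_comap R hR.prop.2 M hM
  have h2 : R ≤ M.comap (QuotientGroup.mk' R) := by
    intro x hx
    change ((x : G) : G ⧸ R) ∈ M
    rw [(QuotientGroup.eq_one_iff x).2 hx]
    exact M.one_mem
  have h3 : M.comap (QuotientGroup.mk' R) ≤ R := hR.le_of_ge ⟨hMn.comap _, h1⟩ h2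
  rw [eq_bot_iff]
  intro x hx
  obtain ⟨g, rfl⟩ := QuotientGroup.mk_surjective x
  exact (QuotientGroup.eq_one_iff g).2 (h3 hx)

/-- If all conjugates of `e` are good, `e` lies in an amenable normal subgroup. -/
lemma folnerIn_normalClosure (hG : PropB G) (𝒦 : Set ℕ) (h𝒦 : 𝒦.Infinite) (e : G)
    (he : ∀ g : G, KGood 𝒦 (g * e * g⁻¹)) : FolnerIn (Subgroup.normalClosure {e}) := by
  obtain ⟨μ, hμ⟩ := inv_measure_of_propB hG 𝒦 h𝒦
  apply folnerIn_of_amenable
  apply amenable_of_inv_measure _ μ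
  intro g hg
  induction hg using Subgroup.closure_induction with
  | mem x hx =>
    rw [Group.mem_conjugatesOfSet_iff] at hx
    obtain ⟨a, ha, hax⟩ := hx
    rw [Set.mem_singleton_iff] at ha
    subst ha
    obtain ⟨c, hc⟩ := isConj_iff.1 hax
    rw [← hc]
    exact hμ _ (he c)
  | one =>
    intro A
    simp
  | mul x y _ _ hx hy =>
    intro A
    have h3 : (fun z => x * y * z) '' A = (fun z => x * z) '' ((fun z => y * z) '' A) := by
      rw [Set.image_image]
      simp only [mul_assoc]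
    rw [h3, hx, hy]
  | inv x _ hx =>
    intro A
    rw [← hx, Set.image_image]
    simp

/-- Groups with property (b) and trivial amenable radical. -/
theorem torsion_of_propB (hG : PropB G) (hrad : ∀ M : Subgroup G, M.Normal → FolnerIn M → M = ⊥)
    (e : G) (he : e ≠ 1) : IsOfFinOrder e ∧ ∃ B : ℕ, ∀ T : Subgroup G, e ∈ T →
      (T : Set G).Finite → Nat.card T ≤ B := by
  have hno : ∀ 𝒦 : Set ℕ, 𝒦.Infinite → ¬ ∀ g : G, KGood 𝒦 (g * e * g⁻¹) := by
    intro 𝒦 h𝒦 h
    have h1 := hrad _ inferInstance (folnerIn_normalClosure hG 𝒦 h𝒦 e h)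
    apply he
    have h2 : e ∈ Subgroup.normalClosure {e} :=
      Subgroup.subset_normalClosure (Set.mem_singleton e)
    rw [h1] at h2
    exact Subgroup.mem_bot.1 h2
  refine ⟨?_, ?_⟩
  · by_contra hinf
    apply hno Set.univ Set.infinite_univ
    intro g
    left
    intro h
    apply hinf
    have h1 : IsOfFinOrder ((MulAut.conj g).toMonoidHom e) := h
    exact ((MulAut.conj g).injective.isOfFinOrder_iff (f := (MulAut.conj g).toMonoidHom)).1 h1
  · by_contra hB
    push Not at hB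
    apply hno {k | ∃ T : Subgroup G, e ∈ T ∧ (T : Set G).Finite ∧ Nat.card T = k}
    · apply Set.infinite_of_not_bddAbove
      rintro ⟨B, hB'⟩
      obtain ⟨T, hT1, hT2, hT3⟩ := hB B
      have := hB' ⟨T, hT1, hT2, rfl⟩
      omega
    · intro g
      right
      refine ⟨0, ?_⟩
      rintro k ⟨T, hT1, hT2, hT3⟩ _
      refine ⟨T.map (MulAut.conj g).toMonoidHom, ⟨e, hT1, rfl⟩, ?_, ?_⟩
      · rw [Subgroup.coe_map]
        exact hT2.image _
      · rw [← hT3]
        exact (Nat.card_congr (T.equivMapOfInjective _ (MulAut.conj g).injective).toEquiv).symm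

/-- If `G × ℤ` has property (b), then `G` is amenable. -/
theorem amenable_of_propB_prod (hG : PropB (G × Multiplicative ℤ)) : Amenable G := by
  obtain ⟨μ, hμ⟩ := inv_measure_of_propB hG Set.univ Set.infinite_univ
  have hinf : ∀ (g : G) (k : Multiplicative ℤ), k ≠ 1 → ¬ IsOfFinOrder (g, k) := by
    intro g k hk h
    have h1 : IsOfFinOrder k := (MonoidHom.snd G (Multiplicative ℤ)).isOfFinOrder h
    exact hk ((isOfFinOrder_iff_eq_one k).1 h1)
  have hgood : ∀ (g : G) (k : Multiplicative ℤ), k ≠ 1 → ∀ A : Set (G × Multiplicative ℤ),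
      μ.val ((fun x => (g, k) * x) '' A) = μ.val A := fun g k hk A =>
    hμ _ (Or.inl (hinf g k hk)) A
  have hz : (Multiplicative.ofAdd (1 : ℤ)) ≠ 1 := by decide
  have hz' : (Multiplicative.ofAdd (-1 : ℤ)) ≠ 1 := by decide
  refine ⟨⟨fun A => μ.val (Prod.fst ⁻¹' A), fun A => μ.nonneg _, ?_, ?_⟩, ?_⟩
  · rw [Set.preimage_univ]
    exact μ.univ
  · intro A B hAB
    rw [Set.preimage_union]
    exact μ.union _ _ (hAB.preimage _)
  · intro g A
    simp only
    have h1 := hgood g (Multiplicative.ofAdd 1) hz (Prod.fst ⁻¹' A)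
    rw [← h1]
    congr 1
    ext ⟨x, k⟩
    simp only [Set.mem_preimage, Set.mem_image, Prod.exists, Prod.mk_mul_mk, Prod.mk.injEq]
    constructor
    · rintro ⟨a, ha, hax⟩
      exact ⟨a, (Multiplicative.ofAdd (1 : ℤ))⁻¹ * k, ha, hax, by rw [mul_inv_cancel_left]⟩
    · rintro ⟨a, b, ha, hax, _⟩
      exact ⟨a, ha, hax⟩

end Pool.Agent.Helper77.PB
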